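import Mathlib

/-!
# Quadratic affine-invariant degree sets without `x^3` have no local characterization

`D t` is the set of all exponents below `2 ^ t` of binary weight at most two, except the orbit of `3`.
For `k + 3 ≤ t` (and `t ≥ 5`) the functions `F_{2^t} → F_2` with exponents in `D t` agree on every set
of `k` points with all functions of degree at most two, because the operator
`x ↦ S x ^ 2 + (S x) ^ (1/2)` has a kernel of at most four elements.
-/

set_option autoImplicit false

open Finset Polynomial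

namespace Pool.Agent.Y570.QuadLoc

/-! ### The degree set -/

/-- the admissible pairs of binary positions -/
def Pair (t i j : ℕ) : Prop := i < j ∧ j < t ∧ j ≠ i + 1 ∧ ¬ (i = 0 ∧ j + 1 = t)

instance (t i j : ℕ) : Decidable (Pair t i j) := by unfold Pair; infer_instance

/-- the degree set -/
def D (t : ℕ) : Finset ℕ :=
  {0} ∪ (range t).image (fun i => 2 ^ i) ∪
    ((range t ×ˢ range t).filter (fun p => Pair t p.1 p.2)).image (fun p => 2 ^ p.1 + 2 ^ p.2)

lemma mem_D {t d : ℕ} : d ∈ D t ↔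
    d = 0 ∨ (∃ i, i < t ∧ d = 2 ^ i) ∨ ∃ i j, Pair t i j ∧ d = 2 ^ i + 2 ^ j := by
  unfold D
  simp only [mem_union, mem_singleton, mem_image, mem_range, mem_filter, mem_product, Prod.exists]
  constructor
  · rintro ((h | ⟨i, hi, rfl⟩) | ⟨i, j, ⟨_, h⟩, rfl⟩)
    · exact Or.inl h
    · exact Or.inr (Or.inl ⟨i, hi, rfl⟩)
    · exact Or.inr (Or.inr ⟨i, j, h, rfl⟩)
  · rintro (h | ⟨i, hi, rfl⟩ | ⟨i, j, h, rfl⟩)
    · exact Or.inl (Or.inl h)
    · exact Or.inl (Or.inr ⟨i, hi, rfl⟩)
    · exact Or.inr ⟨i, j, ⟨⟨h.1.trans h.2.1, h.2.1⟩, h⟩, rfl⟩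

lemma s2_double (n : ℕ) : (Nat.digits 2 (2 * n)).sum = (Nat.digits 2 n).sum := by
  rcases Nat.eq_zero_or_pos n with rfl | hn
  · simp
  · rw [Nat.digits_def' (by norm_num) (by omega)]
    simp

lemma s2_double_add_one (n : ℕ) : (Nat.digits 2 (2 * n + 1)).sum = (Nat.digits 2 n).sum + 1 := by
  rw [Nat.digits_def' (by norm_num) (by omega)]
  have h1 : (2 * n + 1) % 2 = 1 := by omega
  have h2 : (2 * n + 1) / 2 = n := by omega
  rw [h1, h2, List.sum_cons, add_comm]

lemma s2_pow_mul (i m : ℕ) : (Nat.digits 2 (2 ^ i * m)).sum = (Nat.digits 2 m).sum := by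
  induction i with
  | zero => simp
  | succ i ih => rw [pow_succ', mul_assoc, s2_double, ih]

lemma s2_pow (i : ℕ) : (Nat.digits 2 (2 ^ i)).sum = 1 := by
  have := s2_pow_mul i 1
  rw [mul_one] at this
  rw [this]
  simp

lemma s2_pair {i j : ℕ} (h : i < j) : (Nat.digits 2 (2 ^ i + 2 ^ j)).sum = 2 := by
  obtain ⟨m, rfl⟩ := Nat.exists_eq_add_of_lt h
  have : 2 ^ i + 2 ^ (i + m + 1) = 2 ^ i * (2 * 2 ^ m + 1) := by ring
  rw [this, s2_pow_mul, s2_double_add_one, s2_pow]

lemma D_small {t : ℕ} (_ht : 2 ≤ t) : ∀ d ∈ D t, d < 2 ^ t ∧ (Nat.digits 2 d).sum ≤ 2 := by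
  intro d hd
  rcases mem_D.mp hd with rfl | ⟨i, hi, rfl⟩ | ⟨i, j, h, rfl⟩
  · simp
  · exact ⟨Nat.pow_lt_pow_right (by norm_num) hi, by rw [s2_pow]; norm_num⟩
  · refine ⟨?_, by rw [s2_pair h.1]⟩
    have h1 : 2 ^ i < 2 ^ j := Nat.pow_lt_pow_right (by norm_num) h.1
    have h2 : 2 ^ (j + 1) ≤ 2 ^ t := Nat.pow_le_pow_right (by norm_num) h.2.1
    rw [pow_succ] at h2
    omega

lemma three_notMem {t : ℕ} : 3 ∉ D t := by
  intro h
  rcases mem_D.mp h with h | ⟨i, hi, h⟩ | ⟨i, j, hp, h⟩
  · omega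
  · rcases i with _ | i
    · simp at h
    · rw [pow_succ] at h; omega
  · have h1 : j < 2 := by
      by_contra hj
      have : 2 ^ 2 ≤ 2 ^ j := Nat.pow_le_pow_right (by norm_num) (by omega)
      have := Nat.two_pow_pos i
      omega
    have h2 := hp.1
    have h3 := hp.2.2.1
    omega

lemma D_double {t : ℕ} (ht : 2 ≤ t) : ∀ d ∈ D t, d ≠ 0 →
    (2 * d - 1) % (2 ^ t - 1) + 1 ∈ D t := by
  intro d hd hd0
  have hlt := (D_small ht d hd).1
  have ht4 : 2 ^ 2 ≤ 2 ^ t := Nat.pow_le_pow_right (by norm_num) ht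
  have key : (2 * d - 1) % (2 ^ t - 1) + 1 = if 2 * d < 2 ^ t then 2 * d else 2 * d + 1 - 2 ^ t := by
    split_ifs with h
    · rw [Nat.mod_eq_of_lt (by omega)]
      omega
    · rw [Nat.mod_eq_sub_mod (by omega), Nat.mod_eq_of_lt (by omega)]
      omega
  rw [key]
  rcases mem_D.mp hd with rfl | ⟨i, hi, rfl⟩ | ⟨i, j, h, rfl⟩
  · exact absurd rfl hd0
  · rcases Nat.lt_or_ge (i + 1) t with h1 | h1
    · have h2 : 2 ^ (i + 1) < 2 ^ t := Nat.pow_lt_pow_right (by norm_num) h1
      rw [if_pos (by rw [pow_succ] at h2; omega)]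
      exact mem_D.mpr (Or.inr (Or.inl ⟨i + 1, h1, by ring⟩))
    · have h2 : i + 1 = t := by omega
      have h3 : 2 * 2 ^ i = 2 ^ t := by rw [← h2]; ring
      rw [if_neg (by omega)]
      exact mem_D.mpr (Or.inr (Or.inl ⟨0, by omega, by omega⟩))
  · obtain ⟨h1, h2, h3, h4⟩ := h
    rcases Nat.lt_or_ge (j + 1) t with h5 | h5
    · have h6 : 2 ^ (i + 1) < 2 ^ (j + 1) := Nat.pow_lt_pow_right (by norm_num) (by omega)
      have h7 : 2 ^ (j + 2) ≤ 2 ^ t := Nat.pow_le_pow_right (by norm_num) (by omega)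
      have e1 : 2 ^ (i + 1) = 2 * 2 ^ i := by ring
      have e2 : 2 ^ (j + 1) = 2 * 2 ^ j := by ring
      have e3 : 2 ^ (j + 2) = 2 * 2 ^ (j + 1) := by ring
      rw [if_pos (by omega)]
      exact mem_D.mpr (Or.inr (Or.inr ⟨i + 1, j + 1, ⟨by omega, h5, by omega, by omega⟩, by omega⟩))
    · have h6 : j + 1 = t := by omega
      have h7 : 2 * 2 ^ j = 2 ^ t := by rw [← h6]; ring
      have e1 : 2 ^ (i + 1) = 2 * 2 ^ i := by ring
      rw [if_neg (by omega)]
      exact mem_D.mpr (Or.inr (Or.inr ⟨0, i + 1, ⟨by omega, by omega, by omega, by omega⟩, by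
        rw [pow_zero]; omega⟩))

lemma testBit_pow {i l : ℕ} : (2 ^ i).testBit l = true ↔ l = i := by
  rw [Nat.testBit_two_pow]
  simp [eq_comm]

lemma testBit_pair {i j l : ℕ} (h : i < j) :
    (2 ^ i + 2 ^ j).testBit l = true ↔ l = i ∨ l = j := by
  have h1 : 2 ^ i < 2 ^ j := Nat.pow_lt_pow_right (by norm_num) h
  have h2 : 2 ^ i + 2 ^ j = 2 ^ j ||| 2 ^ i := by
    have := Nat.two_pow_add_eq_or_of_lt h1 1
    rw [mul_one] at this
    rw [← this, add_comm]
  rw [h2, Nat.testBit_or, Bool.or_eq_true, testBit_pow, testBit_pow, or_comm]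

lemma D_shadow {t : ℕ} (_ht : 2 ≤ t) : ∀ d ∈ D t, ∀ e : ℕ,
    (∀ i : ℕ, e.testBit i = true → d.testBit i = true) → e ∈ D t := by
  intro d hd e he
  have h0 : (∀ i, e.testBit i = false) → e ∈ D t := by
    intro h
    have : e = 0 := Nat.eq_of_testBit_eq (fun i => by rw [h i, Nat.zero_testBit])
    exact mem_D.mpr (Or.inl this)
  have hone : ∀ a < t, (∀ i, e.testBit i = true ↔ i = a) → e ∈ D t := by
    intro a ha h
    have : e = 2 ^ a := Nat.eq_of_testBit_eq (fun i => by
      rw [Bool.eq_iff_iff, h i, testBit_pow])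
    exact mem_D.mpr (Or.inr (Or.inl ⟨a, ha, this⟩))
  rcases mem_D.mp hd with rfl | ⟨a, ha, rfl⟩ | ⟨a, b, hp, rfl⟩
  · apply h0
    intro i
    have := he i
    rw [Nat.zero_testBit] at this
    simpa using this
  · by_cases hea : e.testBit a = true
    · apply hone a ha
      intro i
      exact ⟨fun hi => testBit_pow.mp (he i hi), fun hi => by rw [hi]; exact hea⟩
    · apply h0
      intro i
      rw [Bool.eq_false_iff]
      intro hi
      have := testBit_pow.mp (he i hi)
      rw [this] at hi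
      exact hea hi
  · have hab := hp.1
    have hb := hp.2.1
    have hmem : ∀ i, e.testBit i = true → i = a ∨ i = b := fun i hi => (testBit_pair hab).mp (he i hi)
    by_cases hea : e.testBit a = true
    · by_cases heb : e.testBit b = true
      · have : e = 2 ^ a + 2 ^ b := Nat.eq_of_testBit_eq (fun i => by
          rw [Bool.eq_iff_iff, testBit_pair hab]
          refine ⟨hmem i, ?_⟩
          rintro (rfl | rfl)
          · exact hea
          · exact heb)
        exact mem_D.mpr (Or.inr (Or.inr ⟨a, b, hp, this⟩))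
      · apply hone a (hab.trans hb)
        intro i
        refine ⟨fun hi => ?_, fun hi => by rw [hi]; exact hea⟩
        rcases hmem i hi with h | h
        · exact h
        · rw [h] at hi; exact absurd hi heb
    · by_cases heb : e.testBit b = true
      · apply hone b hb
        intro i
        refine ⟨fun hi => ?_, fun hi => by rw [hi]; exact heb⟩
        rcases hmem i hi with h | h
        · rw [h] at hi; exact absurd hi hea
        · exact h
      · apply h0
        intro i
        rw [Bool.eq_false_iff]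
        intro hi
        rcases hmem i hi with h | h
        · rw [h] at hi; exact hea hi
        · rw [h] at hi; exact heb hi

/-! ### Functions with exponents in a finite set -/

section field

variable {K : Type} [Field K] [Fintype K] [Algebra (ZMod 2) K]

/-- `F` is a combination of the monomials `x ^ d`, `d ∈ D`. -/
def Rep (D : Finset ℕ) (F : K → K) : Prop := ∃ c : ℕ → K, ∀ x, F x = ∑ d ∈ D, c d * x ^ d

omit [Fintype K] [Algebra (ZMod 2) K] in
lemma Rep.zero (D : Finset ℕ) : Rep D (fun _ : K => 0) := ⟨fun _ => 0, fun x => by simp⟩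

omit [Fintype K] [Algebra (ZMod 2) K] in
lemma Rep.add {D : Finset ℕ} {F G : K → K} (hF : Rep D F) (hG : Rep D G) :
    Rep D (fun x => F x + G x) := by
  obtain ⟨c, hc⟩ := hF
  obtain ⟨c', hc'⟩ := hG
  refine ⟨fun d => c d + c' d, fun x => ?_⟩
  simp only
  rw [hc, hc', ← sum_add_distrib]
  exact sum_congr rfl fun d _ => by ring

omit [Fintype K] [Algebra (ZMod 2) K] in
lemma Rep.sum {D : Finset ℕ} {ι : Type} (s : Finset ι) {F : ι → K → K}
    (hF : ∀ i ∈ s, Rep D (F i)) : Rep D (fun x => ∑ i ∈ s, F i x) := by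
  classical
  induction s using Finset.induction_on with
  | empty => simpa using Rep.zero D
  | insert a s ha ih =>
    have h1 := hF a (mem_insert_self a s)
    have h2 := ih (fun i hi => hF i (mem_insert_of_mem hi))
    have := h1.add h2
    simpa [sum_insert ha] using this

omit [Fintype K] [Algebra (ZMod 2) K] in
lemma Rep.monomial {D : Finset ℕ} {d : ℕ} (hd : d ∈ D) (a : K) : Rep D (fun x => a * x ^ d) := by
  classical
  refine ⟨fun e => if e = d then a else 0, fun x => ?_⟩
  rw [sum_eq_single d]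
  · simp
  · intro b _ hb
    simp [hb]
  · intro h
    exact absurd hd h

omit [Fintype K] [Algebra (ZMod 2) K] in
lemma Rep.smul {D : Finset ℕ} {F : K → K} (hF : Rep D F) (a : K) :
    Rep D (fun x => a * F x) := by
  obtain ⟨c, hc⟩ := hF
  refine ⟨fun d => a * c d, fun x => ?_⟩
  simp only
  rw [hc, mul_sum]
  exact sum_congr rfl fun d _ => by ring

variable (K) in
/-- the trace to `F_2` -/
noncomputable def T : K →ₗ[ZMod 2] ZMod 2 := Algebra.trace (ZMod 2) K

variable {t : ℕ}

lemma T_eq (ht : Module.finrank (ZMod 2) K = t) (x : K) :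
    algebraMap (ZMod 2) K (T K x) = ∑ i ∈ range t, x ^ 2 ^ i := by
  unfold T
  rw [FiniteField.algebraMap_trace_eq_sum_pow, ht]
  simp

lemma card_eq (ht : Module.finrank (ZMod 2) K = t) : Fintype.card K = 2 ^ t := by
  rw [Module.card_eq_pow_finrank (K := ZMod 2) (V := K), ht, ZMod.card]

lemma pow_card (ht : Module.finrank (ZMod 2) K = t) (x : K) : x ^ 2 ^ t = x := by
  rw [← card_eq ht]
  exact FiniteField.pow_card x

lemma pow_card_add (ht : Module.finrank (ZMod 2) K = t) (x : K) (m : ℕ) :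
    x ^ 2 ^ (t + m) = x ^ 2 ^ m := by
  rw [pow_add, pow_mul, pow_card ht]

omit [Fintype K] in
variable (K) in
lemma charP : CharP K 2 := by
  have : CharP (ZMod 2) 2 := inferInstance
  exact charP_of_injective_algebraMap (algebraMap (ZMod 2) K).injective 2

lemma T_nondeg {a : K} (h : ∀ c : K, T K (c * a) = 0) : a = 0 := by
  by_contra ha
  have h2 : Algebra.trace (ZMod 2) K ≠ 0 := Algebra.trace_ne_zero (ZMod 2) K
  apply h2
  ext x
  have := h (x * a⁻¹)
  rw [mul_assoc, inv_mul_cancel₀ ha, mul_one] at this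
  simpa [T] using this

/-! ### Members of the property -/

/-- the property with degree set `D t` -/
def InP (t : ℕ) (f : K → ZMod 2) : Prop := Rep (D t) (fun x => algebraMap (ZMod 2) K (f x))

omit [Fintype K] in
lemma InP.add {f g : K → ZMod 2} (hf : InP t f) (hg : InP t g) : InP t (fun x => f x + g x) := by
  unfold InP at *
  simpa using hf.add hg

omit [Fintype K] in
lemma InP.zero : InP (K := K) t (fun _ => 0) := by
  unfold InP
  simpa using Rep.zero (K := K) (D t)

omit [Fintype K] in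
lemma InP.smul {f : K → ZMod 2} (hf : InP t f) (a : ZMod 2) : InP t (fun x => a * f x) := by
  unfold InP at *
  simpa using Rep.smul hf (algebraMap (ZMod 2) K a)

lemma inP_lin (ht : Module.finrank (ZMod 2) K = t) (c : K) : InP t (fun x => T K (c * x)) := by
  unfold InP
  simp_rw [T_eq ht]
  refine Rep.sum _ fun i hi => ?_
  simp_rw [mul_pow]
  exact Rep.monomial (mem_D.mpr (Or.inr (Or.inl ⟨i, mem_range.mp hi, rfl⟩))) _

lemma inP_quad (ht : Module.finrank (ZMod 2) K = t) {s : ℕ} (hs : 2 ≤ s) (hs2 : s + 2 ≤ t) (c : K) :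
    InP t (fun x => T K (c * x ^ (1 + 2 ^ s))) := by
  unfold InP
  simp_rw [T_eq ht]
  refine Rep.sum _ fun i hi => ?_
  have hi := mem_range.mp hi
  simp_rw [mul_pow]
  rcases Nat.lt_or_ge (s + i) t with h | h
  · have e : ∀ x : K, (x ^ (1 + 2 ^ s)) ^ 2 ^ i = x ^ (2 ^ i + 2 ^ (i + s)) := by
      intro x
      rw [← pow_mul]
      congr 1
      ring
    simp_rw [e]
    exact Rep.monomial (mem_D.mpr (Or.inr (Or.inr
      ⟨i, i + s, ⟨by omega, by omega, by omega, by omega⟩, rfl⟩))) _
  · obtain ⟨m, hm⟩ := Nat.exists_eq_add_of_le h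
    have e : ∀ x : K, (x ^ (1 + 2 ^ s)) ^ 2 ^ i = x ^ (2 ^ m + 2 ^ i) := by
      intro x
      rw [← pow_mul, add_mul, one_mul, ← pow_add, hm, pow_add, pow_card_add ht, pow_add, mul_comm]
    simp_rw [e]
    exact Rep.monomial (mem_D.mpr (Or.inr (Or.inr
      ⟨m, i, ⟨by omega, by omega, by omega, by omega⟩, rfl⟩))) _

/-- `x ↦ Tr (x ^ 3)` is not in the property. -/
lemma cubic_notInP (ht : Module.finrank (ZMod 2) K = t) (h3 : 3 ≤ t) :
    ¬ InP t (fun x : K => T K (x ^ 3)) := by
  classical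
  rintro ⟨c, hc⟩
  simp_rw [T_eq ht] at hc
  obtain ⟨s, rfl⟩ : ∃ s, t = s + 1 := ⟨t - 1, by omega⟩
  set Q : K[X] := (∑ i ∈ range s, X ^ (3 * 2 ^ i)) + X ^ (2 ^ s + 1)
    - ∑ d ∈ D (s + 1), C (c d) * X ^ d with hQ
  have hev : ∀ x : K, Q.eval x = 0 := by
    intro x
    have h1 := hc x
    rw [sum_range_succ] at h1
    have h2 : (x ^ 3) ^ 2 ^ s = x ^ (2 ^ s + 1) := by
      have h4 := pow_card ht x
      calc (x ^ 3) ^ 2 ^ s = x ^ 2 ^ s * x ^ 2 ^ (s + 1) := by
            rw [← pow_mul, ← pow_add]; congr 1; ring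
        _ = x ^ 2 ^ s * x := by rw [h4]
        _ = x ^ (2 ^ s + 1) := by ring
    rw [h2] at h1
    have h3 : ∑ i ∈ range s, (x ^ 3) ^ 2 ^ i = ∑ i ∈ range s, x ^ (3 * 2 ^ i) :=
      sum_congr rfl fun i _ => by rw [pow_mul]
    rw [h3] at h1
    rw [hQ]
    simp only [eval_sub, eval_add, eval_finsetSum, eval_pow, eval_X, eval_mul, eval_C]
    rw [h1, sub_self]
  have hdeg : Q.natDegree < Fintype.card K := by
    rw [card_eq ht]
    have hs4 : 2 ^ 2 ≤ 2 ^ s := Nat.pow_le_pow_right (by norm_num) (by omega)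
    have hss : 2 ^ (s + 1) = 2 * 2 ^ s := by ring
    have b1 : (∑ i ∈ range s, (X : K[X]) ^ (3 * 2 ^ i)).natDegree ≤ 2 ^ (s + 1) - 1 := by
      apply natDegree_sum_le_of_forall_le
      intro i hi
      rw [natDegree_X_pow]
      have : 2 ^ (i + 1) ≤ 2 ^ s := Nat.pow_le_pow_right (by norm_num) (mem_range.mp hi)
      rw [pow_succ] at this
      omega
    have b2 : ((X : K[X]) ^ (2 ^ s + 1)).natDegree ≤ 2 ^ (s + 1) - 1 := by
      rw [natDegree_X_pow]
      omega
    have b3 : (∑ d ∈ D (s + 1), C (c d) * (X : K[X]) ^ d).natDegree ≤ 2 ^ (s + 1) - 1 := by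
      apply natDegree_sum_le_of_forall_le
      intro d hd
      refine (natDegree_C_mul_X_pow_le _ _).trans ?_
      have := (D_small (by omega) d hd).1
      omega
    have : Q.natDegree ≤ 2 ^ (s + 1) - 1 := by
      rw [hQ]
      exact (natDegree_sub_le _ _).trans (max_le ((natDegree_add_le _ _).trans (max_le b1 b2)) b3)
    omega
  have hQ0 : Q = 0 := eq_zero_of_natDegree_lt_card_of_eval_eq_zero Q (f := id)
    Function.injective_id hev hdeg
  have hcoef : Q.coeff 3 = 1 := by
    have hs4 : 2 ^ 2 ≤ 2 ^ s := Nat.pow_le_pow_right (by norm_num) (by omega)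
    rw [hQ, coeff_sub, coeff_add, finsetSum_coeff, finsetSum_coeff]
    have c1 : ∑ i ∈ range s, ((X : K[X]) ^ (3 * 2 ^ i)).coeff 3 = 1 := by
      rw [sum_eq_single 0]
      · simp
      · intro i _ hi
        rw [coeff_X_pow, if_neg]
        have : 2 ^ 1 ≤ 2 ^ i := Nat.pow_le_pow_right (by norm_num) (by omega)
        omega
      · intro h
        exact absurd (mem_range.mpr (by omega)) h
    have c2 : ((X : K[X]) ^ (2 ^ s + 1)).coeff 3 = 0 := by
      rw [coeff_X_pow, if_neg (by omega)]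
    have c3 : ∑ d ∈ D (s + 1), (C (c d) * (X : K[X]) ^ d).coeff 3 = 0 := by
      apply sum_eq_zero
      intro d hd
      rw [coeff_C_mul_X_pow, if_neg]
      intro h
      rw [← h] at hd
      exact three_notMem hd
    rw [c1, c2, c3]
    ring
  rw [hQ0, coeff_zero] at hcoef
  exact zero_ne_one hcoef

/-! ### The main argument -/

/-- On `k` points the property contains the restriction of `Tr (x ^ 3)`. -/
theorem agree (ht : Module.finrank (ZMod 2) K = t) {k : ℕ} (hk : k + 3 ≤ t) (h5 : 5 ≤ t)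
    (α : Fin k → K) : ∃ g : K → ZMod 2, InP t g ∧ ∀ i, g (α i) = T K (α i ^ 3) := by
  classical
  have hchar : CharP K 2 := charP K
  -- restrictions of the members of the property
  let W : Submodule (ZMod 2) (Fin k → ZMod 2) :=
    { carrier := {y | ∃ g : K → ZMod 2, InP t g ∧ ∀ i, g (α i) = y i}
      add_mem' := by
        rintro y y' ⟨g, hg, h⟩ ⟨g', hg', h'⟩
        exact ⟨fun x => g x + g' x, hg.add hg', fun i => by simp only; rw [h, h']; rfl⟩
      zero_mem' := ⟨fun _ => 0, InP.zero, fun i => rfl⟩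
      smul_mem' := by
        rintro a y ⟨g, hg, h⟩
        exact ⟨fun x => a * g x, hg.smul a, fun i => by simp only; rw [h]; rfl⟩ }
  by_contra hcon
  have hnot : (fun i => T K (α i ^ 3)) ∉ W := fun h => hcon h
  obtain ⟨v, hv, hW⟩ := Submodule.exists_le_ker_of_notMem hnot
  have hvsum : ∀ y : Fin k → ZMod 2, v y = ∑ i, v (Pi.single i 1) * y i := by
    intro y
    conv_lhs => rw [pi_eq_sum_univ' y]
    rw [map_sum]
    refine sum_congr rfl fun i _ => ?_
    rw [map_smul, smul_eq_mul, mul_comm]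
  set w : Fin k → K := fun i => algebraMap (ZMod 2) K (v (Pi.single i 1)) with hw
  have hann : ∀ g : K → ZMod 2, InP t g → v (fun i => g (α i)) = 0 := by
    intro g hg
    exact hW ⟨g, hg, fun i => rfl⟩
  -- the trace of a sum
  have htr : ∀ (c : K) (e : ℕ), v (fun i => T K (c * α i ^ e)) = T K (c * ∑ i, w i * α i ^ e) := by
    intro c e
    rw [hvsum, mul_sum, map_sum]
    refine sum_congr rfl fun i _ => ?_
    rw [hw]
    have : c * (algebraMap (ZMod 2) K (v (Pi.single i 1)) * α i ^ e)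
        = v (Pi.single i 1) • (c * α i ^ e) := by
      rw [Algebra.smul_def]; ring
    simp only [this, map_smul, smul_eq_mul]
  let S : ℕ → K := fun s => ∑ i, w i * α i ^ (1 + 2 ^ s)
  have hSmid : ∀ s, 2 ≤ s → s + 2 ≤ t → S s = 0 := by
    intro s hs hs2
    apply T_nondeg
    intro c
    rw [← htr c (1 + 2 ^ s)]
    exact hann _ (inP_quad ht hs hs2 c)
  have hlin : ∑ i, w i * α i ^ 1 = 0 := by
    apply T_nondeg
    intro c
    rw [← htr c 1]
    have := hann _ (inP_lin ht c)
    simpa using this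
  have hw2 : ∀ i, w i ^ 2 = w i := by
    intro i
    rw [hw]
    simp only
    rw [← map_pow, ZMod.pow_card]
  have hS0 : S 0 = 0 := by
    have h1 : (∑ i, w i * α i ^ 1) ^ 2 = ∑ i, (w i * α i ^ 1) ^ 2 := sum_pow_char 2 _ _
    rw [hlin] at h1
    have h2 : S 0 = ∑ i, (w i * α i ^ 1) ^ 2 := by
      refine sum_congr rfl fun i _ => ?_
      rw [mul_pow, hw2, pow_zero, ← pow_mul, one_add_one_eq_two, one_mul]
    rw [h2, ← h1]
    ring
  have hS1 : S 1 ≠ 0 := by
    intro h
    apply hv
    have h1 := htr 1 3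
    simp only [one_mul] at h1
    rw [h1]
    have : ∑ i, w i * α i ^ 3 = S 1 := by
      refine sum_congr rfl fun i _ => by norm_num
    rw [this, h, map_zero]
  have hSt : S (t - 1) ^ 2 = S 1 := by
    have h1 : S (t - 1) ^ 2 = ∑ i, (w i * α i ^ (1 + 2 ^ (t - 1))) ^ 2 := sum_pow_char 2 _ _
    rw [h1]
    refine sum_congr rfl fun i _ => ?_
    rw [mul_pow, hw2, ← pow_mul]
    congr 1
    have h2 : (1 + 2 ^ (t - 1)) * 2 = 2 + 2 ^ t := by
      have : 2 ^ t = 2 ^ (t - 1) * 2 := by
        rw [← pow_succ]; congr 1; omega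
      omega
    rw [h2, pow_add, pow_card ht]
    ring
  -- the common kernel of the functionals `x ↦ Tr (α i x)`
  let L : K →ₗ[ZMod 2] (Fin k → ZMod 2) :=
    LinearMap.pi fun i => (T K).comp (LinearMap.mulLeft (ZMod 2) (α i))
  have hker : ∀ x ∈ LinearMap.ker L, S 1 * x ^ 4 + x = 0 := by
    intro x hx
    have hx' : ∀ i, T K (α i * x) = 0 := by
      intro i
      have := congrFun (LinearMap.mem_ker.mp hx) i
      simpa [L] using this
    have h1 : ∑ i, w i * α i * algebraMap (ZMod 2) K (T K (α i * x)) = 0 := by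
      apply sum_eq_zero
      intro i _
      rw [hx' i, map_zero, mul_zero]
    have h2 : ∑ i, w i * α i * algebraMap (ZMod 2) K (T K (α i * x))
        = ∑ j ∈ range t, S j * x ^ 2 ^ j := by
      calc ∑ i, w i * α i * algebraMap (ZMod 2) K (T K (α i * x))
          = ∑ i, ∑ j ∈ range t, w i * α i ^ (1 + 2 ^ j) * x ^ 2 ^ j := by
            refine sum_congr rfl fun i _ => ?_
            rw [T_eq ht, mul_sum]
            refine sum_congr rfl fun j _ => ?_
            rw [mul_pow, pow_add, pow_one]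
            ring
        _ = ∑ j ∈ range t, ∑ i, w i * α i ^ (1 + 2 ^ j) * x ^ 2 ^ j := sum_comm
        _ = _ := by
            refine sum_congr rfl fun j _ => ?_
            rw [sum_mul]
    have h3 : ∑ j ∈ range t, S j * x ^ 2 ^ j = S 1 * x ^ 2 + S (t - 1) * x ^ 2 ^ (t - 1) := by
      rw [← sum_subset (s₁ := {1, t - 1})]
      · rw [sum_pair (by omega)]
        norm_num
      · intro j hj
        simp only [mem_insert, mem_singleton] at hj
        exact mem_range.mpr (by omega)
      · intro j hj hj2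
        simp only [mem_insert, mem_singleton, not_or] at hj2
        have hjt := mem_range.mp hj
        rcases Nat.eq_zero_or_pos j with rfl | hj0
        · rw [hS0, zero_mul]
        · rw [hSmid j (by omega) (by omega), zero_mul]
    rw [h1, h3] at h2
    have h4 : (S 1 * x ^ 2 + S (t - 1) * x ^ 2 ^ (t - 1)) ^ 2 = S 1 * (S 1 * x ^ 4 + x) := by
      rw [add_pow_char, mul_pow, mul_pow, hSt, ← pow_mul, ← pow_mul]
      have h5 : 2 ^ (t - 1) * 2 = 2 ^ t := by rw [← pow_succ]; congr 1; omega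
      rw [h5, pow_card ht]
      ring
    rw [← h2] at h4
    have h5 : S 1 * (S 1 * x ^ 4 + x) = 0 := by rw [← h4]; ring
    exact (mul_eq_zero.mp h5).resolve_left hS1
  -- at most four elements
  have hroots : Fintype.card (LinearMap.ker L) ≤ 4 := by
    set Q : K[X] := C (S 1) * X ^ 4 + X with hQ
    have hQd : Q.natDegree ≤ 4 := by
      rw [hQ]
      refine (natDegree_add_le _ _).trans (max_le (natDegree_C_mul_X_pow_le _ _) ?_)
      rw [natDegree_X]
      norm_num
    have hQ0 : Q ≠ 0 := by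
      intro h
      have : Q.coeff 4 = S 1 := by
        rw [hQ, coeff_add, coeff_C_mul_X_pow, if_pos rfl, coeff_X, if_neg (by norm_num), add_zero]
      rw [h, coeff_zero] at this
      exact hS1 this.symm
    have hinj : Fintype.card (LinearMap.ker L) ≤ Q.roots.toFinset.card := by
      rw [← Fintype.card_coe]
      refine Fintype.card_le_of_injective
        (fun x => ⟨x.1, by
          rw [Multiset.mem_toFinset, mem_roots hQ0, IsRoot.def, hQ]
          simpa using hker x.1 x.2⟩) ?_
      intro x y h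
      exact Subtype.ext (by simpa using h)
    exact hinj.trans ((Multiset.toFinset_card_le _).trans ((card_roots' Q).trans hQd))
  -- at least eight elements
  have hfin : 3 ≤ Module.finrank (ZMod 2) (LinearMap.ker L) := by
    have h1 := LinearMap.finrank_range_add_finrank_ker L
    have h2 : Module.finrank (ZMod 2) (LinearMap.range L) ≤ k := by
      have := Submodule.finrank_le (LinearMap.range L)
      simpa using this
    rw [ht] at h1
    omega
  have hcard : Fintype.card (LinearMap.ker L) = 2 ^ Module.finrank (ZMod 2) (LinearMap.ker L) := by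
    rw [Module.card_eq_pow_finrank (K := ZMod 2) (V := LinearMap.ker L), ZMod.card]
  have h8 : 2 ^ 3 ≤ 2 ^ Module.finrank (ZMod 2) (LinearMap.ker L) :=
    Nat.pow_le_pow_right (by norm_num) hfin
  omega

end field

end Pool.Agent.Y570.QuadLoc
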